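import Pool.Agent.Helper22.G4.St.C0

/-! # G4-C15: every facet has at least three vertices -/

set_option autoImplicit false

namespace Pool.Agent.Helper54.G4

open Pool.Agent.Helper22.G4

/-- a vertex of page `a` at slope `s` -/
theorem cover {I : NF} (hI : I.OK) {a s : ℕ} (ha : a ≤ I.M) (hs : s ≤ I.N) :
    ∃ i j, Vx.u a i j ∈ I.data.verts ∧ i ≤ s ∧ s ≤ j := by
  obtain ⟨_, _, hN, _⟩ := NF.size hI
  rcases Nat.lt_or_ge s I.N with h | h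
  · obtain ⟨i, j, h1, h2, h3⟩ := NF.pu_cover hI ha h
    exact ⟨i, j, h1, h2, by omega⟩
  · obtain ⟨i, j, h1, h2, h3⟩ := NF.pu_cover hI (s := I.N - 1) ha (by omega)
    exact ⟨i, j, h1, by omega, by omega⟩

theorem u_ne {a b i j k l : ℕ} (h : a ≠ b) : Vx.u a i j ≠ Vx.u b k l := by
  intro h'
  simp only [Vx.u, Prod.mk.injEq] at h'
  exact h h'.2.1

/-- a facet on two pages and `q g` -/
theorem facG {I : NF} (hI : I.OK) {a b g s : ℕ} {t : Bool} (ha : a ≤ I.M) (hb : b ≤ I.M)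
    (hab : a ≠ b) (hg : g < 3 * I.ops.length) (hs : s ≤ I.N) :
    ∃ x ∈ I.data.verts, ∃ y ∈ I.data.verts, ∃ z ∈ I.data.verts, x ≠ y ∧ x ≠ z ∧ y ≠ z ∧
      Fc.mem (Fc.G I.N a b g (s, t)) x = true ∧ Fc.mem (Fc.G I.N a b g (s, t)) y = true ∧
      Fc.mem (Fc.G I.N a b g (s, t)) z = true := by
  obtain ⟨i, j, h1, h2, h3⟩ := cover hI ha hs
  obtain ⟨k, l, h4, h5, h6⟩ := cover hI hb hs
  refine ⟨_, h1, _, h4, _, NF.q_mem.2 hg, u_ne hab, by simp [Vx.u, Vx.q], by simp [Vx.u, Vx.q],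
    ?_, ?_, ?_⟩
  · rw [Fc.mem_u]
    exact ⟨Or.inl rfl, h2, h3⟩
  · rw [Fc.mem_u]
    exact ⟨Or.inr (Or.inl rfl), h5, h6⟩
  · rw [Fc.mem_q]; rfl

/-- a facet that contains `b1`, `b2` and something else -/
theorem facB {I : NF} {f : Fc} {v : Vx} (hv : v ∈ I.data.verts) (h1 : v ≠ Vx.b1) (h2 : v ≠ Vx.b2)
    (hf : Fc.mem f v = true) (hb : f.2.2.1 = (true, true)) :
    ∃ x ∈ I.data.verts, ∃ y ∈ I.data.verts, ∃ z ∈ I.data.verts, x ≠ y ∧ x ≠ z ∧ y ≠ z ∧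
      Fc.mem f x = true ∧ Fc.mem f y = true ∧ Fc.mem f z = true :=
  ⟨_, NF.b_mem.1, _, NF.b_mem.2, _, hv, by simp [Vx.b1, Vx.b2], h1.symm, h2.symm,
    by rw [Fc.mem_b1, hb], by rw [Fc.mem_b2, hb], hf⟩

theorem facGXY {I : NF} {g : ℕ} (hg : g < 3 * I.ops.length) {f : Fc}
    (hb : f.2.2.1 = (true, true)) (hf : f.2.2.2.1 = g + 1 ∨ f.2.2.2.2 = g + 1) :
    ∃ x ∈ I.data.verts, ∃ y ∈ I.data.verts, ∃ z ∈ I.data.verts, x ≠ y ∧ x ≠ z ∧ y ≠ z ∧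
      Fc.mem f x = true ∧ Fc.mem f y = true ∧ Fc.mem f z = true := by
  rcases hf with h | h
  · exact facB (NF.p_mem.2 hg) (by simp [Vx.p, Vx.b1]) (by simp [Vx.p, Vx.b2])
      ((Fc.mem_p _ _).2 h) hb
  · exact facB (NF.q_mem.2 hg) (by simp [Vx.q, Vx.b1]) (by simp [Vx.q, Vx.b2])
      ((Fc.mem_q _ _).2 h) hb

/-- G4-C15 (every facet has at least three vertices). -/
theorem NF.fac3 {I : NF} (hI : I.OK) : ∀ f ∈ I.data.fcodes, ∃ a ∈ I.data.verts,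
    ∃ b ∈ I.data.verts, ∃ c ∈ I.data.verts, a ≠ b ∧ a ≠ c ∧ b ≠ c ∧
      I.data.mem f a ∧ I.data.mem f b ∧ I.data.mem f c := by
  intro f hf
  obtain ⟨hM, hM2, hN, _⟩ := NF.size hI
  change ∃ a ∈ I.data.verts,
    ∃ b ∈ I.data.verts, ∃ c ∈ I.data.verts, a ≠ b ∧ a ≠ c ∧ b ≠ c ∧
      Fc.mem f a = true ∧ Fc.mem f b = true ∧ Fc.mem f c = true
  have hQ : ∀ a b, a ≤ I.M → ∃ x ∈ I.data.verts, ∃ y ∈ I.data.verts, ∃ z ∈ I.data.verts,
      x ≠ y ∧ x ≠ z ∧ y ≠ z ∧ Fc.mem (Fc.Q I.N a b) x = true ∧ Fc.mem (Fc.Q I.N a b) y = true ∧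
        Fc.mem (Fc.Q I.N a b) z = true := by
    intro a b ha
    obtain ⟨i, j, h1, h2, h3⟩ := cover hI (s := 0) ha (by omega)
    refine facB h1 (by simp [Vx.u, Vx.b1]) (by simp [Vx.u, Vx.b2]) ?_ rfl
    rw [Fc.mem_u]
    refine ⟨Or.inl rfl, ?_, ?_⟩
    · change i ≤ I.N
      omega
    · change 0 ≤ j
      omega
  rcases NF.mem_fcodes.1 hf with rfl | ⟨a, s, h1, h2, h3, rfl⟩ | ⟨d, hd, hfd⟩
  · exact hQ 0 1 (by omega)
  · obtain ⟨i, j, k1, k2, k3⟩ := cover hI (a := 0) (by omega) h3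
    obtain ⟨i', j', k1', k2', k3'⟩ := cover hI (a := a) (by omega) h3
    obtain ⟨i'', j'', k1'', k2'', k3''⟩ := cover hI (a := a + 1) h2 h3
    refine ⟨_, k1, _, k1', _, k1'', u_ne (by omega), u_ne (by omega), u_ne (by omega), ?_, ?_, ?_⟩
    · rw [Fc.mem_u]
      exact ⟨Or.inl rfl, k2, k3⟩
    · rw [Fc.mem_u]
      exact ⟨Or.inr (Or.inl rfl), k2', k3'⟩
    · rw [Fc.mem_u]
      exact ⟨Or.inr (Or.inr rfl), k2'', k3''⟩
  · obtain ⟨e1, e2, e3, e4, e5, e6, e7, e8, _⟩ := NF.opd_ok hI hd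
    have ga : d.pa ≤ I.M := by unfold OpD.pa; omega
    have gb : d.pb ≤ I.M := by unfold OpD.pb; omega
    have gc : d.pc ≤ I.M := by unfold OpD.pc; omega
    have gd : d.pd ≤ I.M := by unfold OpD.pd; omega
    have l0 : d.g0 < 3 * I.ops.length := by unfold OpD.g0; omega
    have l1 : d.g1 < 3 * I.ops.length := by unfold OpD.g1; omega
    have l2 : d.g2 < 3 * I.ops.length := by unfold OpD.g2; omega
    have n1 : d.pb ≠ d.pa := by unfold OpD.pb OpD.pa; omega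
    have n2 : d.pb ≠ d.pc := by unfold OpD.pb OpD.pc; omega
    have n3 : d.pc ≠ d.pd := by unfold OpD.pc OpD.pd; omega
    simp only [OpD.facets, List.mem_cons, List.not_mem_nil, or_false] at hfd
    rcases hfd with rfl | rfl | rfl | rfl | rfl | rfl | rfl | rfl | rfl | rfl | rfl | rfl | rfl |
      rfl | rfl | rfl | rfl | rfl | rfl | rfl | rfl | rfl | rfl | rfl | rfl | rfl | rfl
    · exact hQ _ _ gd
    · exact facGXY l0 rfl (Or.inl rfl)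
    · exact facGXY l0 rfl (Or.inr rfl)
    · exact facGXY l0 rfl (Or.inl rfl)
    · exact facGXY l1 rfl (Or.inl rfl)
    · exact facGXY l1 rfl (Or.inr rfl)
    · exact facGXY l1 rfl (Or.inl rfl)
    · exact facGXY l2 rfl (Or.inl rfl)
    · exact facGXY l2 rfl (Or.inr rfl)
    · exact facGXY l2 rfl (Or.inl rfl)
    all_goals
      first
      | exact facG hI gb ga n1 l0 (by omega)
      | exact facG hI gb gc n2 l1 (by omega)
      | exact facG hI gc gd n3 l2 (by omega)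

end Pool.Agent.Helper54.G4
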