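import Pool.Agent.Helper22.G4.St.C0

/-! # G4-C4: every vertex is the intersection of its facets -/

set_option autoImplicit false

namespace Pool.Agent.Helper54.G4

open Pool.Agent.Helper22.G4

theorem fc_op {I : NF} {d : OpD} (hd : d ∈ I.opds) {f : Fc} (hf : f ∈ OpD.facets I.M I.N d) :
    f ∈ I.data.fcodes := NF.mem_fcodes.2 (Or.inr (Or.inr ⟨d, hd, hf⟩))

theorem gadget {I : NF} {g : ℕ} (hg : g < 3 * I.ops.length) : ∃ a b c e : ℕ,
    Fc.T0 I.M I.N g ∈ I.data.fcodes ∧ Fc.GX I.N a g ∈ I.data.fcodes ∧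
      Fc.GY I.N b g ∈ I.data.fcodes ∧ Fc.G I.N c e g (0, true) ∈ I.data.fcodes ∧
      Fc.G I.N c e g (I.N, true) ∈ I.data.fcodes := by
  obtain ⟨d, hd, hn⟩ := NF.opds_exists (I := I) (n := g / 3) (by omega)
  have h3 : g = d.g0 ∨ g = d.g1 ∨ g = d.g2 := by
    unfold OpD.g0 OpD.g1 OpD.g2
    omega
  rcases h3 with rfl | rfl | rfl
  · exact ⟨d.pb, d.pa, d.pb, d.pa, fc_op hd (by simp [OpD.facets]),
      fc_op hd (by simp [OpD.facets]), fc_op hd (by simp [OpD.facets]),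
      fc_op hd (by simp [OpD.facets]), fc_op hd (by simp [OpD.facets])⟩
  · exact ⟨d.pb, d.pc, d.pb, d.pc, fc_op hd (by simp [OpD.facets]),
      fc_op hd (by simp [OpD.facets]), fc_op hd (by simp [OpD.facets]),
      fc_op hd (by simp [OpD.facets]), fc_op hd (by simp [OpD.facets])⟩
  · exact ⟨d.pc, d.pd, d.pc, d.pd, fc_op hd (by simp [OpD.facets]),
      fc_op hd (by simp [OpD.facets]), fc_op hd (by simp [OpD.facets]),
      fc_op hd (by simp [OpD.facets]), fc_op hd (by simp [OpD.facets])⟩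

theorem F_mem {I : NF} {a s : ℕ} (ha : 1 ≤ a) (ha' : a + 1 ≤ I.M) (hs : s ≤ I.N) :
    Fc.F I.N s a ∈ I.data.fcodes :=
  NF.mem_fcodes.2 (Or.inr (Or.inl ⟨a, s, ha, ha', hs, rfl⟩))

/-- what the facets at slope `s` contain -/
theorem F_u {N s a b k l : ℕ} : Fc.mem (Fc.F N s a) (Vx.u b k l) = true ↔
    (b = 0 ∨ b = a ∨ b = a + 1) ∧ k ≤ s ∧ s ≤ l := by
  rw [Fc.mem_u]; rfl

theorem Q_u {N c a b k l : ℕ} : Fc.mem (Fc.Q N c a) (Vx.u b k l) = true ↔
    (b = c ∨ b = a ∨ b = a) ∧ k ≤ N ∧ 0 ≤ l := by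
  rw [Fc.mem_u]; rfl

theorem F_b1 {N s a : ℕ} : Fc.mem (Fc.F N s a) Vx.b1 = true ↔ s = N := by
  rw [Fc.mem_b1]; simp [Fc.F]

theorem F_b2 {N s a : ℕ} : Fc.mem (Fc.F N s a) Vx.b2 = true ↔ s = 0 := by
  rw [Fc.mem_b2]; simp [Fc.F]

theorem F_p {N s a g : ℕ} : ¬ Fc.mem (Fc.F N s a) (Vx.p g) = true := by
  rw [Fc.mem_p]; simp [Fc.F]

theorem F_q {N s a g : ℕ} : ¬ Fc.mem (Fc.F N s a) (Vx.q g) = true := by
  rw [Fc.mem_q]; simp [Fc.F]

/-- the data of a page: facets before and after it -/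
theorem page_facets {I : NF} (hI : I.OK) {a i j : ℕ} (h : I.PU a i j) (ha : 1 ≤ a) :
    ∃ c : ℕ, (c = a ∨ c + 1 = a) ∧ Fc.F I.N i c ∈ I.data.fcodes ∧ Fc.F I.N j c ∈ I.data.fcodes ∧
      ∃ f ∈ I.data.fcodes, Fc.mem f (Vx.u a i j) = true ∧
        ∀ b k l, Fc.mem f (Vx.u b k l) = true → (b = c ∨ b = c + 1) → b = a := by
  obtain ⟨hij, hjN, haM⟩ := NF.pu_lt hI h
  obtain ⟨hM, _, _, _⟩ := NF.size hI
  by_cases h1 : a = I.M
  · refine ⟨a - 1, Or.inr (by omega), F_mem (by omega) (by omega) (by omega),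
      F_mem (by omega) (by omega) hjN, OpD.next I.M I.N a i, NF.next_mem hI ha haM (by omega), ?_,
      ?_⟩
    · rw [OpD.next, if_pos h1, Q_u]
      omega
    · intro b k l
      rw [OpD.next, if_pos h1, Q_u]
      omega
  · refine ⟨a, Or.inl rfl, F_mem ha (by omega) (by omega), F_mem ha (by omega) hjN,
      OpD.prev I.N a i, NF.prev_mem hI ha haM (by omega), ?_, ?_⟩
    · by_cases h2 : a = 1
      · rw [OpD.prev, if_pos h2, Q_u]
        omega
      · rw [OpD.prev, if_neg h2, F_u]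
        omega
    · intro b k l
      by_cases h2 : a = 1
      · rw [OpD.prev, if_pos h2, Q_u]
        omega
      · rw [OpD.prev, if_neg h2, F_u]
        omega

theorem fvert_page {I : NF} (hI : I.OK) {a i j : ℕ} (h : I.PU a i j) (ha : 1 ≤ a) {t : Vx}
    (ht : t ∈ I.data.verts)
    (H : ∀ f ∈ I.data.fcodes, Fc.mem f (Vx.u a i j) = true → Fc.mem f t = true) :
    t = Vx.u a i j := by
  obtain ⟨hij, hjN, haM⟩ := NF.pu_lt hI h
  obtain ⟨hM, _, _, _⟩ := NF.size hI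
  obtain ⟨hlong, _, _⟩ := NF.pu_long hI h (by omega)
  obtain ⟨c, hc, hFi, hFj, f, hf, hfv, hft⟩ := page_facets hI h ha
  have h1 := H _ hFi (F_u.2 ⟨by omega, by omega, by omega⟩)
  have h2 := H _ hFj (F_u.2 ⟨by omega, by omega, by omega⟩)
  have h3 := H _ hf hfv
  rcases NF.verts_cases ht with rfl | rfl | ⟨b, k, l, hb, rfl⟩ | ⟨g, _, rfl⟩ | ⟨g, _, rfl⟩
  · rw [F_b1] at h1; omega
  · rw [F_b2] at h2; omega
  · rw [F_u] at h1 h2
    have hb' : b = 0 ∨ b = a := by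
      rcases h1.1 with h0 | h0 | h0
      · exact Or.inl h0
      · exact Or.inr (hft _ _ _ h3 (Or.inl h0))
      · exact Or.inr (hft _ _ _ h3 (Or.inr h0))
    rcases hb' with rfl | rfl
    · rcases NF.pu_iff.1 hb with ⟨_, _, hl⟩ | ⟨d, _, hd⟩
      · omega
      · unfold OpD.pa OpD.pb OpD.pc OpD.pd at hd
        omega
    · obtain ⟨e1, e2⟩ := NF.pu_unique hI h hb (by omega) (by omega)
      rw [e1, e2]
  · exact absurd h1 F_p
  · exact absurd h1 F_q

theorem fvert_zero {I : NF} (hI : I.OK) {s i j : ℕ} (hs : s < I.N) {t : Vx}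
    (ht : t ∈ I.data.verts) (hi : i = s) (hj : j = s + 1)
    (H : ∀ f ∈ I.data.fcodes, Fc.mem f (Vx.u 0 i j) = true → Fc.mem f t = true) :
    t = Vx.u 0 i j := by
  subst hi hj
  obtain ⟨hM, _, _, _⟩ := NF.size hI
  have h1 := H _ (F_mem (s := i) (a := 1) le_rfl (by omega) (by omega))
    (F_u.2 ⟨by omega, by omega, by omega⟩)
  have h2 := H _ (F_mem (s := i + 1) (a := 1) le_rfl (by omega) (by omega))
    (F_u.2 ⟨by omega, by omega, by omega⟩)
  have h3 := H _ (F_mem (s := i) (a := 3) (by omega) (by omega) (by omega))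
    (F_u.2 ⟨by omega, by omega, by omega⟩)
  rcases NF.verts_cases ht with rfl | rfl | ⟨b, k, l, hb, rfl⟩ | ⟨g, _, rfl⟩ | ⟨g, _, rfl⟩
  · rw [F_b1] at h1; omega
  · rw [F_b2] at h2; omega
  · rw [F_u] at h1 h2 h3
    have hb0 : b = 0 := by omega
    subst hb0
    rcases NF.pu_iff.1 hb with ⟨_, _, hl⟩ | ⟨d, _, hd⟩
    · have e1 : k = i := by omega
      rw [hl, e1]
    · unfold OpD.pa OpD.pb OpD.pc OpD.pd at hd
      omega
  · exact absurd h1 F_p
  · exact absurd h1 F_q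

/-- G4-C4 -/
theorem NF.fvert {I : NF} (hI : I.OK) : ∀ v ∈ I.data.verts, ∀ t ∈ I.data.verts, t ≠ v →
    ∃ f ∈ I.data.fcodes, I.data.mem f v ∧ ¬ I.data.mem f t := by
  intro v hv t ht htv
  by_contra hcon
  have H : ∀ f ∈ I.data.fcodes, Fc.mem f v = true → Fc.mem f t = true := by
    intro f hf hfv
    by_contra hft
    exact hcon ⟨f, hf, hfv, hft⟩
  apply htv
  obtain ⟨hM, hM2, hN, _⟩ := NF.size hI
  have hb : ∀ s, (s = 0 ∨ s = I.N) → Fc.mem (Fc.F I.N s 1) v = true →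
      Fc.mem (Fc.F I.N s 3) v = true → (∀ a g, Fc.mem (Fc.GX I.N a g) v = true) →
      (s = 0 → t ≠ Vx.b2) → (s = I.N → t ≠ Vx.b1) → False := by
    intro s hs h1 h3 hG hb2 hb1
    have k1 := H _ (F_mem (s := s) (a := 1) le_rfl (by omega) (by omega)) h1
    have k3 := H _ (F_mem (s := s) (a := 3) (by omega) (by omega) (by omega)) h3
    obtain ⟨d, hd, _⟩ := NF.opds_exists (I := I) (n := 0) (by omega)
    have kG := H (Fc.GX I.N d.pb d.g0) (fc_op hd (by simp [OpD.facets])) (hG _ _)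
    rcases NF.verts_cases ht with rfl | rfl | ⟨b, k, l, hb, rfl⟩ | ⟨g, _, rfl⟩ | ⟨g, _, rfl⟩
    · rw [F_b1] at k1
      exact hb1 k1 rfl
    · rw [F_b2] at k1
      exact hb2 k1 rfl
    · rw [F_u] at k1 k3
      rw [Fc.mem_u] at kG
      have hb0 : b = 0 := by omega
      subst hb0
      simp only [Fc.GX, OpD.pb] at kG
      omega
    · exact absurd k1 F_p
    · exact absurd k1 F_q
  rcases NF.verts_cases hv with rfl | rfl | ⟨a, i, j, hv', rfl⟩ | ⟨g, hg, rfl⟩ | ⟨g, hg, rfl⟩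
  · exact (hb I.N (Or.inr rfl) (F_b1.2 rfl) (F_b1.2 rfl)
      (fun a g => by rw [Fc.mem_b1]; rfl) (fun h => absurd h (by omega)) (fun _ => htv)).elim
  · exact (hb 0 (Or.inl rfl) (F_b2.2 rfl) (F_b2.2 rfl)
      (fun a g => by rw [Fc.mem_b2]; rfl) (fun _ => htv) (fun h => absurd h (by omega))).elim
  · rcases NF.pu_iff.1 hv' with ⟨ha, hi, hj⟩ | ⟨d, _, hd⟩
    · subst ha
      exact fvert_zero hI hi ht rfl hj H
    · exact fvert_page hI hv' (by unfold OpD.pa OpD.pb OpD.pc OpD.pd at hd; omega) ht H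
  · obtain ⟨a, b, c, e, f1, f2, f3, f4, f5⟩ := gadget (I := I) hg
    have h1 := H _ f1 (by rw [Fc.mem_p]; rfl)
    have h2 := H _ f2 (by rw [Fc.mem_p]; rfl)
    have h4 := H _ f4 (by rw [Fc.mem_p]; rfl)
    have h5 := H _ f5 (by rw [Fc.mem_p]; rfl)
    rcases NF.verts_cases ht with rfl | rfl | ⟨b', k, l, hb', rfl⟩ | ⟨g', _, rfl⟩ | ⟨g', _, rfl⟩
    · rw [Fc.mem_b1] at h4
      simp only [Fc.G, decide_eq_true_eq] at h4
      omega
    · rw [Fc.mem_b2] at h5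
      simp only [Fc.G, decide_eq_true_eq] at h5
      omega
    · rw [Fc.mem_u] at h1
      have := (NF.pu_lt hI hb').2.2
      simp only [Fc.T0] at h1
      omega
    · rw [Fc.mem_p] at h1
      simp only [Fc.T0] at h1
      have : g' = g := by omega
      rw [this]
    · rw [Fc.mem_q] at h2
      simp only [Fc.GX] at h2
      omega
  · obtain ⟨a, b, c, e, f1, f2, f3, f4, f5⟩ := gadget (I := I) hg
    have h1 := H _ f1 (by rw [Fc.mem_q]; rfl)
    have h3 := H _ f3 (by rw [Fc.mem_q]; rfl)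
    have h4 := H _ f4 (by rw [Fc.mem_q]; rfl)
    have h5 := H _ f5 (by rw [Fc.mem_q]; rfl)
    rcases NF.verts_cases ht with rfl | rfl | ⟨b', k, l, hb', rfl⟩ | ⟨g', _, rfl⟩ | ⟨g', _, rfl⟩
    · rw [Fc.mem_b1] at h4
      simp only [Fc.G, decide_eq_true_eq] at h4
      omega
    · rw [Fc.mem_b2] at h5
      simp only [Fc.G, decide_eq_true_eq] at h5
      omega
    · rw [Fc.mem_u] at h1
      have := (NF.pu_lt hI hb').2.2
      simp only [Fc.T0] at h1
      omega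
    · rw [Fc.mem_p] at h3
      simp only [Fc.GY] at h3
      omega
    · rw [Fc.mem_q] at h1
      simp only [Fc.T0] at h1
      have : g' = g := by omega
      rw [this]

end Pool.Agent.Helper54.G4
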