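import Pool.Agent.Helper22.G4.Poly

/-! # G4-F5: the list of the vertices of the final graph has no duplicates -/

set_option autoImplicit false

namespace Pool.Agent.Helper54.G4

open Pool.Agent.Helper22.G4

section

variable {α φ : Type}

theorem cycPairs_nodup {l : List α} (h : l.Nodup) : (cycPairs l).Nodup := by
  have h1 : ((cycPairs l).map Prod.fst).Nodup := by
    unfold cycPairs
    rw [List.map_fst_zip]
    · exact h
    · cases l <;> simp
  exact List.Nodup.of_map _ h1

theorem allW_nodup {D : Data α φ} (hD : D.Good) : D.allW.Nodup := by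
  unfold Data.allW
  refine List.Nodup.append (hD.vnd.map ?_) (List.Nodup.append (hD.fnd.map ?_)
    (List.Nodup.append (hD.rnd.map ?_) (hD.rnd.map ?_) ?_) ?_) ?_
  · intro a b h
    simpa [W.v] using h
  · intro a b h
    simpa [W.x] using h
  · intro a b h
    simpa [W.p] using h
  · intro a b h
    simpa [W.q] using h
  · intro w h1 h2
    rw [List.mem_map] at h1 h2
    obtain ⟨R, _, rfl⟩ := h1
    obtain ⟨S, _, h⟩ := h2
    simp [W.p, W.q] at h
  · intro w h1 h2
    rw [List.mem_append, List.mem_map, List.mem_map] at h2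
    rw [List.mem_map] at h1
    obtain ⟨f, _, rfl⟩ := h1
    rcases h2 with ⟨S, _, h⟩ | ⟨S, _, h⟩ <;> simp [W.p, W.q, W.x] at h
  · intro w h1 h2
    rw [List.mem_append, List.mem_append, List.mem_map, List.mem_map, List.mem_map] at h2
    rw [List.mem_map] at h1
    obtain ⟨a, _, rfl⟩ := h1
    rcases h2 with ⟨S, _, h⟩ | ⟨S, _, h⟩ | ⟨S, _, h⟩ <;> simp [W.p, W.q, W.x, W.v] at h

theorem head_Ts {R : Flat α φ} {T : List (W α φ)} (hT : T ∈ Ts R) :
    T.head? = some (W.p R) ∨ T.head? = some (W.q R) := by
  unfold Ts at hT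
  rw [List.mem_append, List.mem_flatMap, List.mem_flatMap] at hT
  rcases hT with ⟨e, _, h⟩ | ⟨e, _, h⟩ <;>
    simp only [List.mem_cons, List.not_mem_nil, or_false] at h
  · rcases h with rfl | rfl
    · exact Or.inl rfl
    · exact Or.inr rfl
  · rcases h with rfl | rfl | rfl <;> exact Or.inl rfl

theorem Ts_nodup {R : Flat α φ} (hR : R.1.Nodup) (he : ∀ e ∈ cycPairs R.1, e.1 ≠ e.2) :
    (Ts R).Nodup := by
  have hc := cycPairs_nodup hR
  unfold Ts
  refine List.Nodup.append ?_ ?_ ?_
  · rw [List.nodup_flatMap]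
    refine ⟨?_, ?_⟩
    · intro e _
      simp [W.p, W.q]
    · refine (hc.sublist (List.drop_sublist _ _)).imp ?_
      intro e e' hne T h1 h2
      simp only [List.mem_cons, List.not_mem_nil, or_false] at h1 h2
      apply hne
      rcases h1 with rfl | rfl <;> rcases h2 with h | h <;>
        simp [W.p, W.q, W.v, W.x] at h
      · exact Prod.ext h.1 h.2
      · exact Prod.ext h.1 h.2
  · rw [List.nodup_flatMap]
    refine ⟨?_, ?_⟩
    · intro e h
      have := he e (List.mem_of_mem_take h)
      simp [W.p, W.q, W.v, W.x, this]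
    · refine (hc.sublist (List.take_sublist _ _)).imp_of_mem ?_
      intro e e' h1 h2 hne
      exfalso
      apply hne
      have hlen : ((cycPairs R.1).take 1).length ≤ 1 := by
        rw [List.length_take]
        omega
      match hl : (cycPairs R.1).take 1, hlen with
      | [], _ => rw [hl] at h1; simp at h1
      | [a], _ =>
        rw [hl] at h1 h2
        simp at h1 h2
        rw [h1, h2]
      | a :: b :: l, h => simp at h
  · intro T h1 h2
    rw [List.mem_flatMap] at h1 h2
    obtain ⟨e, _, h1⟩ := h1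
    obtain ⟨e', _, h2⟩ := h2
    simp only [List.mem_cons, List.not_mem_nil, or_false] at h1 h2
    rcases h1 with rfl | rfl <;> rcases h2 with h | h | h <;>
      simp [W.p, W.q, W.v, W.x] at h

/-- G4-F5 -/
theorem Data.allX_nodup {α φ : Type} [DecidableEq α] [DecidableEq φ] {D : Data α φ}
    (hD : D.Good) : D.allX.Nodup := by
  unfold Data.allX
  refine List.Nodup.append ((allW_nodup hD).map Sum.inl_injective)
    (List.Nodup.map Sum.inr_injective ?_) ?_
  · rw [List.nodup_flatMap]
    refine ⟨?_, ?_⟩
    · intro R hR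
      exact Ts_nodup (hD.nd R hR) (fun e he => (hD.edge R hR e he).1)
    · refine hD.rnd.imp ?_
      intro R S hne T h1 h2
      apply hne
      rcases head_Ts h1 with h | h <;> rcases head_Ts h2 with h' | h' <;> rw [h] at h' <;>
        simp [W.p, W.q] at h'
      · exact h'
      · exact h'
  · intro w h1 h2
    rw [List.mem_map] at h1 h2
    obtain ⟨a, _, rfl⟩ := h1
    obtain ⟨T, _, h⟩ := h2
    simp at h

end

end Pool.Agent.Helper54.G4
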